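import Pool.Agent.H11.CNX.CNT
import Pool.Agent.H38.CNX.CNX
import Pool.Agent.H63.CNX.DCP
import Pool.Agent.H21.CNX.DGZ
import Pool.Agent.H78.CNX.FMD
import Pool.Agent.H48.CNX.GCN
import Pool.Agent.H77.CNX.INE
import Pool.Agent.H45.CNX.KRU
import Pool.Agent.H33.CNX.LOA
import Pool.Agent.H13.CNX.NUM
import Pool.Agent.H34.CNX.NZA
import Pool.Agent.H68.CNX.NZB
import Pool.Agent.H78.CNX.PLB
import Pool.Agent.H48.CNX.REG
import Pool.Agent.H77.CNX.RGF
import Pool.Agent.H34.CNX.TIN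
import Pool.Agent.H49.CNX.VAN
import Pool.Agent.H56.CNX.VSB
import Pool.Agent.H7.CNX.VST

/-!
# MP_70ba79_ag, THEOREM S (surfaces): smooth hypersurface sections are irreducible, all rows
-/

set_option autoImplicit false

namespace Pool.Agent.H17.CX.A

open Pool.Agent.H17.CX

theorem dcp : T_DCP := Pool.Agent.H63.CNX.pf_DCP
theorem loa : T_LOA := Pool.Agent.H33.CNX.pf_LOA
theorem tin : T_TIN := Pool.Agent.H34.CNX.pf_TIN loa
theorem nza : T_NZA := Pool.Agent.H34.CNX.pf_NZA tin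
theorem nzb : T_NZB := Pool.Agent.H68.CNX.pf_NZB
theorem rgf : T_RGF := Pool.Agent.H77.CNX.pf_RGF
theorem reg : T_REG := Pool.Agent.H48.CNX.pf_REG loa
theorem van : T_VAN := Pool.Agent.H49.CNX.pf_VAN loa rgf
theorem ine : T_INE := Pool.Agent.H77.CNX.pf_INE reg
theorem dgz : T_DGZ := Pool.Agent.H21.CNX.pf_DGZ
theorem gcn : T_GCN := Pool.Agent.H48.CNX.pf_GCN ine rgf
theorem fmd : T_FMD := Pool.Agent.H78.CNX.pf_FMD
theorem plb : T_PLB := Pool.Agent.H78.CNX.pf_PLB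
theorem vsb : T_VSB := Pool.Agent.H56.CNX.pf_VSB
theorem vst : T_VST := Pool.Agent.H7.CNX.pf_VST van
theorem num : T_NUM := Pool.Agent.H13.CNX.pf_NUM
theorem cnt : T_CNT := Pool.Agent.H11.CNX.pf_CNT tin nza nzb gcn fmd plb vsb vst num
theorem kru : T_KRU := Pool.Agent.H45.CNX.pf_KRU reg
/-- a smooth hypersurface section of a projective surface is irreducible -/
theorem cnx : T_CNX := Pool.Agent.H38.CNX.pf_CNX dcp nza nzb rgf van ine dgz cnt kru

end Pool.Agent.H17.CX.A
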