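import Pool.Agent.H17.SFG.IRR

/-!
# MP_70ba79_ag, THEOREM S (surfaces): smooth hypersurface sections are irreducible. Targets.

`X` are the homogeneous coordinates of the surface, `G` is a form, the curve `G = 0` is smooth. If it
is not irreducible then it has a component, given by the homogeneous prime ideal `Q`; there is a
rational function without poles on this component which is not constant, and this leads to a
contradiction.
-/

set_option autoImplicit false

namespace Pool.Agent.H17.CX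

open MvPolynomial SC Pool.Agent.H27.LV
open Pool.Agent.H92.SF Pool.Agent.H3.SF Pool.Agent.H17.SD Pool.Agent.H17.SFG

section Defs

variable {k F σ LL : Type} [Field k] [Field F] [Algebra k F] [Field LL] [Algebra k LL]

/-- a smooth curve on a surface: the setting -/
structure Stg (X : σ → F) [Fintype σ] (dd : Fin 3 → Derivation k F F) (m : ℕ)
    (G : MvPolynomial σ k) : Prop where
  cone : Cone k X
  li : LinearIndependent F fun l => fun i => dd l (X i)
  one : 1 ≤ m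
  hG : G.IsHomogeneous m
  G0 : aeval X G ≠ 0
  smo : Smo X G

/-- `Q` is the homogeneous ideal of a component of the curve `G = 0`, the form `g` vanishes on the
other components -/
structure Cpt (X : σ → F) (G g : MvPolynomial σ k) (Q : Ideal (MvPolynomial σ k)) : Prop where
  prime : Q.IsPrime
  hom : ∀ f ∈ Q, ∀ d, homogeneousComponent d f ∈ Q
  ker : ∀ f, aeval X f = 0 → f ∈ Q
  mem : G ∈ Q
  gh : ∃ e, g.IsHomogeneous e
  gn : g ∉ Q
  mul : ∀ f ∈ Q, f * g ∈ Irp X G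
  pt : ∃ s : σ → k, s ≠ 0 ∧ ∀ f ∈ Q, eval s f = 0

/-- the fraction `a / G ^ j` is regular at the generic point of the component, `b / p` is its
restriction -/
def Rgl (X : σ → F) (G : MvPolynomial σ k) (Q : Ideal (MvPolynomial σ k)) (j : ℕ)
    (a p b : MvPolynomial σ k) : Prop :=
  p ∉ Q ∧ aeval X (p * a) = aeval X (b * G ^ j)

/-- the field `LL` of the component with the restriction `ρ`, `W` are two linear forms over which it
is integral, `c` is a common denominator of the integral elements -/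
structure Nrz (Q : Ideal (MvPolynomial σ k)) (ρ : MvPolynomial σ k →ₐ[k] LL)
    (W : Fin 2 → MvPolynomial σ k) (c : MvPolynomial σ k) : Prop where
  ker : ∀ f, ρ f = 0 ↔ f ∈ Q
  lin : ∀ l, (W l).IsHomogeneous 1
  ind : AlgebraicIndependent k fun l => ρ (W l)
  int : ∀ i, Itg k (fun l => ρ (W l)) (ρ (MvPolynomial.X i))
  cn : c ∉ Q
  cnd : ∀ z : LL, Itg k (fun l => ρ (W l)) z → ∃ b, ρ c * z = ρ b

/-- the forms of degree `t` on the surface -/
noncomputable def Pt (X : σ → F) (t : ℕ) : Submodule k F :=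
  (homogeneousSubmodule σ k t).map (aeval X : MvPolynomial σ k →ₐ[k] F).toLinearMap

/-- the forms of degree `t` on the component -/
noncomputable def St (ρ : MvPolynomial σ k →ₐ[k] LL) (t : ℕ) : Submodule k LL :=
  (homogeneousSubmodule σ k t).map ρ.toLinearMap

/-- the forms `a` of degree `t` such that `a / G ^ j` is regular at the generic point of the
component -/
def Vt (X : σ → F) (G : MvPolynomial σ k) (Q : Ideal (MvPolynomial σ k)) (t j : ℕ) : Set F :=
  {x | ∃ a p b : MvPolynomial σ k, a.IsHomogeneous t ∧ aeval X a = x ∧ Rgl X G Q j a p b}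

end Defs

/-- DCP: decomposition of a reducible curve -/
def T_DCP : Prop := ∀ (k F σ : Type) [Field k] [IsAlgClosed k] [Field F] [Algebra k F] [Fintype σ]
  (X : σ → F) (m : ℕ) (G : MvPolynomial σ k), HRel k X → 1 ≤ m → G.IsHomogeneous m →
  aeval X G ≠ 0 → ¬ Irr X G → ∃ (Q Q' : Ideal (MvPolynomial σ k)) (g g' h : MvPolynomial σ k)
    (d : ℕ), Cpt X G g Q ∧ Cpt X G g' Q' ∧ h.IsHomogeneous d ∧ h ∈ Q ∧ h ∉ Q'

/-- LOA: forms of the ideal of the component are locally divisible by `G` -/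
def T_LOA : Prop := ∀ (k F σ : Type) [Field k] [IsAlgClosed k] [CharZero k] [Field F] [Algebra k F]
  [Fintype σ] (X : σ → F) (dd : Fin 3 → Derivation k F F) (m : ℕ) (G g : MvPolynomial σ k)
  (Q : Ideal (MvPolynomial σ k)), Stg X dd m G → Cpt X G g Q → ∀ (e : ℕ) (f : MvPolynomial σ k),
  f.IsHomogeneous e → f ∈ Q → ∀ s : σ → k, s ≠ 0 → (∀ p ∈ Q, eval s p = 0) →
  ∃ (d : ℕ) (p q : MvPolynomial σ k), p.IsHomogeneous (d + m) ∧ q.IsHomogeneous (d + e) ∧
    eval s p ≠ 0 ∧ aeval X (p * f) = aeval X (q * G)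

/-- TIN: two linear forms which are algebraically independent on the component -/
def T_TIN : Prop := ∀ (k F σ : Type) [Field k] [IsAlgClosed k] [CharZero k] [Field F] [Algebra k F]
  [Fintype σ] (X : σ → F) (dd : Fin 3 → Derivation k F F) (m : ℕ) (G g : MvPolynomial σ k)
  (Q : Ideal (MvPolynomial σ k)), Stg X dd m G → Cpt X G g Q →
  ∃ L : Fin 2 → MvPolynomial σ k, (∀ l, (L l).IsHomogeneous 1) ∧
    ∀ P : MvPolynomial (Fin 2) k, P ≠ 0 → aeval L P ∉ Q

/-- NZA: Noether normalisation of the component -/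
def T_NZA : Prop := ∀ (k F σ : Type) [Field k] [IsAlgClosed k] [CharZero k] [Field F] [Algebra k F]
  [Fintype σ] (X : σ → F) (dd : Fin 3 → Derivation k F F) (m : ℕ) (G g : MvPolynomial σ k)
  (Q : Ideal (MvPolynomial σ k)), Stg X dd m G → Cpt X G g Q →
  ∃ (LL : Type) (_ : Field LL) (_ : Algebra k LL) (ρ : MvPolynomial σ k →ₐ[k] LL)
    (W : Fin 2 → MvPolynomial σ k), (∀ f, ρ f = 0 ↔ f ∈ Q) ∧
    (IntermediateField.adjoin k (Set.range ρ) = ⊤) ∧ (∀ l, (W l).IsHomogeneous 1) ∧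
    (AlgebraicIndependent k fun l => ρ (W l)) ∧
    ∀ i, Itg k (fun l => ρ (W l)) (ρ (MvPolynomial.X i))

/-- NZB: common denominator of the integral elements -/
def T_NZB : Prop := ∀ (k σ LL : Type) [Field k] [CharZero k] [Field LL] [Algebra k LL] [Fintype σ]
  (ρ : MvPolynomial σ k →ₐ[k] LL) (W : Fin 2 → MvPolynomial σ k),
  IntermediateField.adjoin k (Set.range ρ) = ⊤ → (∀ l, (W l).IsHomogeneous 1) →
  (AlgebraicIndependent k fun l => ρ (W l)) →
  (∀ i, Itg k (fun l => ρ (W l)) (ρ (MvPolynomial.X i))) →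
  ∃ c : MvPolynomial σ k, ρ c ≠ 0 ∧ ∀ z : LL, Itg k (fun l => ρ (W l)) z → ∃ b, ρ c * z = ρ b

/-- RGF: representation by forms -/
def T_RGF : Prop := ∀ (k F σ : Type) [Field k] [Field F] [Algebra k F] (X : σ → F) (m : ℕ)
  (G g : MvPolynomial σ k) (Q : Ideal (MvPolynomial σ k)), HRel k X → G.IsHomogeneous m →
  aeval X G ≠ 0 → Cpt X G g Q →
  ∀ (t j : ℕ) (a p b : MvPolynomial σ k), a.IsHomogeneous t → Rgl X G Q j a p b →
  ∃ (d e : ℕ) (p' b' : MvPolynomial σ k), p'.IsHomogeneous d ∧ b'.IsHomogeneous e ∧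
    Rgl X G Q j a p' b' ∧ (b' = 0 ∨ d + t = e + j * m) ∧
    aeval X (p * b') = aeval X (p' * b)

/-- REG: regularity at all points of the component -/
def T_REG : Prop := ∀ (k F σ : Type) [Field k] [IsAlgClosed k] [CharZero k] [Field F] [Algebra k F]
  [Fintype σ] (X : σ → F) (dd : Fin 3 → Derivation k F F) (m : ℕ) (G g : MvPolynomial σ k)
  (Q : Ideal (MvPolynomial σ k)), Stg X dd m G → Cpt X G g Q →
  ∀ (t j : ℕ) (a p b : MvPolynomial σ k), a.IsHomogeneous t → Rgl X G Q j a p b →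
  ∀ s : σ → k, s ≠ 0 → (∀ p ∈ Q, eval s p = 0) →
  ∃ (d e : ℕ) (p' b' : MvPolynomial σ k), p'.IsHomogeneous d ∧ b'.IsHomogeneous e ∧
    d + t = e + j * m ∧ eval s p' ≠ 0 ∧ aeval X (p' * a) = aeval X (b' * G ^ j)

/-- VAN: if the restriction of `a / G ^ j` is zero then `a / G ^ (j + 1)` is regular -/
def T_VAN : Prop := ∀ (k F σ : Type) [Field k] [IsAlgClosed k] [CharZero k] [Field F] [Algebra k F]
  [Fintype σ] (X : σ → F) (dd : Fin 3 → Derivation k F F) (m : ℕ) (G g : MvPolynomial σ k)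
  (Q : Ideal (MvPolynomial σ k)), Stg X dd m G → Cpt X G g Q →
  ∀ (t j : ℕ) (a p b : MvPolynomial σ k), a.IsHomogeneous t → Rgl X G Q j a p b → b ∈ Q →
  ∃ p' b' : MvPolynomial σ k, Rgl X G Q (j + 1) a p' b'

/-- INE: the restrictions are integral -/
def T_INE : Prop := ∀ (k F σ LL : Type) [Field k] [IsAlgClosed k] [CharZero k] [Field F]
  [Algebra k F] [Field LL] [Algebra k LL]
  [Fintype σ] (X : σ → F) (dd : Fin 3 → Derivation k F F) (m : ℕ) (G g : MvPolynomial σ k)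
  (Q : Ideal (MvPolynomial σ k)) (ρ : MvPolynomial σ k →ₐ[k] LL) (W : Fin 2 → MvPolynomial σ k)
  (c : MvPolynomial σ k), Stg X dd m G → Cpt X G g Q → Nrz Q ρ W c →
  ∀ (t j : ℕ) (a p b : MvPolynomial σ k), a.IsHomogeneous t → Rgl X G Q j a p b →
  ∀ z : LL, ρ p * z = ρ b → Itg k (fun l => ρ (W l)) z

/-- DGZ: restrictions of degree zero are constants, restrictions of negative degree are zero -/
def T_DGZ : Prop := ∀ (k σ LL : Type) [Field k] [IsAlgClosed k] [Field LL] [Algebra k LL]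
  [Fintype σ] (Q : Ideal (MvPolynomial σ k)) (ρ : MvPolynomial σ k →ₐ[k] LL)
  (W : Fin 2 → MvPolynomial σ k), (∀ f ∈ Q, ∀ d, homogeneousComponent d f ∈ Q) →
  (∀ f, ρ f = 0 ↔ f ∈ Q) → (∀ l, (W l).IsHomogeneous 1) →
  ∀ (d e : ℕ) (p b : MvPolynomial σ k), p.IsHomogeneous d → b.IsHomogeneous e → p ∉ Q → e ≤ d →
  ∀ z : LL, ρ p * z = ρ b → Itg k (fun l => ρ (W l)) z →
  (e < d → z = 0) ∧ (e = d → ∃ c : k, z = algebraMap k LL c)

/-- GCN: a form which is a common denominator -/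
def T_GCN : Prop := ∀ (k F σ LL : Type) [Field k] [IsAlgClosed k] [CharZero k] [Field F]
  [Algebra k F] [Field LL] [Algebra k LL]
  [Fintype σ] (X : σ → F) (dd : Fin 3 → Derivation k F F) (m : ℕ) (G g : MvPolynomial σ k)
  (Q : Ideal (MvPolynomial σ k)) (ρ : MvPolynomial σ k →ₐ[k] LL) (W : Fin 2 → MvPolynomial σ k)
  (c : MvPolynomial σ k), Stg X dd m G → Cpt X G g Q → Nrz Q ρ W c →
  ∃ (dc : ℕ) (c' : MvPolynomial σ k), c'.IsHomogeneous dc ∧ c' ∉ Q ∧
  ∀ (t j : ℕ) (a p b : MvPolynomial σ k), a.IsHomogeneous t → j * m ≤ t → Rgl X G Q j a p b →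
  ∀ z : LL, ρ p * z = ρ b → ρ c' * z ∈ St ρ (t - j * m + dc)

/-- FMD: the dimensions of the spaces of forms on the component grow slowly -/
def T_FMD : Prop := ∀ (k σ LL : Type) [Field k] [Field LL] [Algebra k LL] [Fintype σ]
  (Q : Ideal (MvPolynomial σ k)) (ρ : MvPolynomial σ k →ₐ[k] LL) (W : Fin 2 → MvPolynomial σ k),
  (∀ f ∈ Q, ∀ d, homogeneousComponent d f ∈ Q) → (∀ f, ρ f = 0 ↔ f ∈ Q) →
  (∀ l, (W l).IsHomogeneous 1) → (∀ l, ρ (W l) ≠ 0) →
  (∀ i, Itg k (fun l => ρ (W l)) (ρ (MvPolynomial.X i))) →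
  ∀ d : ℕ, ∃ C : ℕ, ∀ t : ℕ,
    Module.finrank k (St ρ (t + d)) ≤ Module.finrank k (St ρ t) + C

/-- PLB: lower bound for the dimension of the space of forms on the surface -/
def T_PLB : Prop := ∀ (k F σ LL : Type) [Field k] [Field F]
  [Algebra k F] [Field LL] [Algebra k LL] [Fintype σ] (X : σ → F) (m : ℕ) (G : MvPolynomial σ k)
  (Q Q' : Ideal (MvPolynomial σ k)) (ρ : MvPolynomial σ k →ₐ[k] LL) (h : MvPolynomial σ k)
  (dh : ℕ) (L : Fin 2 → MvPolynomial σ k), G.IsHomogeneous m → aeval X G ≠ 0 →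
  (∀ f, ρ f = 0 ↔ f ∈ Q) → (∀ f, aeval X f = 0 → f ∈ Q) → (∀ f, aeval X f = 0 → f ∈ Q') →
  Q'.IsPrime → G ∈ Q → G ∈ Q' → h.IsHomogeneous dh → h ∈ Q → h ∉ Q' →
  (∀ l, (L l).IsHomogeneous 1) → (∀ P : MvPolynomial (Fin 2) k, P ≠ 0 → aeval L P ∉ Q') →
  ∀ t : ℕ, dh ≤ t → Module.finrank k (Pt (k := k) X t) + Module.finrank k (St ρ (t + m)) + (t + m - dh + 1) ≤
    Module.finrank k (Pt (k := k) X (t + m))

/-- VST: one step of the filtration by the order of the pole on the component -/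
def T_VST : Prop := ∀ (k F σ LL : Type) [Field k] [IsAlgClosed k] [CharZero k] [Field F]
  [Algebra k F] [Field LL] [Algebra k LL]
  [Fintype σ] (X : σ → F) (dd : Fin 3 → Derivation k F F) (m : ℕ) (G g : MvPolynomial σ k)
  (Q : Ideal (MvPolynomial σ k)) (ρ : MvPolynomial σ k →ₐ[k] LL), Stg X dd m G → Cpt X G g Q →
  (∀ f, ρ f = 0 ↔ f ∈ Q) → ∀ (dc : ℕ) (c' : MvPolynomial σ k), c' ∉ Q →
  (∀ (t j : ℕ) (a p b : MvPolynomial σ k), a.IsHomogeneous t → j * m ≤ t → Rgl X G Q j a p b →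
    ∀ z : LL, ρ p * z = ρ b → ρ c' * z ∈ St ρ (t - j * m + dc)) →
  ∀ t j : ℕ, j * m ≤ t → ∀ V V' : Submodule k F, (V : Set F) = Vt X G Q t j →
  (V' : Set F) = Vt X G Q t (j + 1) →
  Module.finrank k V ≤ Module.finrank k V' + Module.finrank k (St ρ (t - j * m + dc))

/-- VSB: the forms with a regular fraction are a subspace -/
def T_VSB : Prop := ∀ (k F σ : Type) [Field k] [Field F] [Algebra k F] (X : σ → F)
  (G : MvPolynomial σ k) (Q : Ideal (MvPolynomial σ k)), Q.IsPrime → ∀ t j : ℕ,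
  ∃ V : Submodule k F, (V : Set F) = Vt X G Q t j

/-- NUM: numerical part of the dimension count -/
def T_NUM : Prop := ∀ (m dh C dc : ℕ) (P S : ℕ → ℕ) (V : ℕ → ℕ → ℕ), 1 ≤ m →
  (∀ t, dh ≤ t → P t + S (t + m) + (t + m - dh + 1) ≤ P (t + m)) →
  (∀ t, S (t + dc) ≤ S t + C) → (∀ n, V n 0 = P (n * m)) →
  (∀ n j, j < n → V n j ≤ V n (j + 1) + S (n * m - j * m + dc)) → ∃ n, 1 ≤ n ∧ 2 ≤ V n n

/-- CNT: a rational function which is not constant and has no pole on the component -/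
def T_CNT : Prop := ∀ (k F σ : Type) [Field k] [IsAlgClosed k] [CharZero k] [Field F] [Algebra k F]
  [Fintype σ] (X : σ → F) (dd : Fin 3 → Derivation k F F) (m : ℕ) (G g g' h : MvPolynomial σ k)
  (Q Q' : Ideal (MvPolynomial σ k)) (dh : ℕ), Stg X dd m G → Cpt X G g Q → Cpt X G g' Q' →
  h.IsHomogeneous dh → h ∈ Q → h ∉ Q' →
  ∃ (n : ℕ) (a p b : MvPolynomial σ k), 1 ≤ n ∧ a.IsHomogeneous (n * m) ∧ Rgl X G Q n a p b ∧
    ∀ c : k, aeval X a ≠ algebraMap k F c * aeval X G ^ n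

/-- KRU: no form vanishes to infinite order on the component -/
def T_KRU : Prop := ∀ (k F σ : Type) [Field k] [IsAlgClosed k] [CharZero k] [Field F] [Algebra k F]
  [Fintype σ] (X : σ → F) (dd : Fin 3 → Derivation k F F) (m : ℕ) (G g : MvPolynomial σ k)
  (Q : Ideal (MvPolynomial σ k)), Stg X dd m G → Cpt X G g Q →
  ∀ (t : ℕ) (a : MvPolynomial σ k), a.IsHomogeneous t →
  (∀ j : ℕ, ∃ p b : MvPolynomial σ k, Rgl X G Q j a p b) → aeval X a = 0

/-- CNX: smooth hypersurface sections are irreducible -/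
def T_CNX : Prop := ∀ (k F σ : Type) [Field k] [IsAlgClosed k] [CharZero k] [Field F] [Algebra k F]
  [Fintype σ] (X : σ → F) (m : ℕ) (G : MvPolynomial σ k), Cone k X → 1 ≤ m →
  G.IsHomogeneous m → aeval X G ≠ 0 → Smo X G → Irr X G

end Pool.Agent.H17.CX
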